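import Pool.Agent.WTight.Bounded

/-!
If the splitting number is the continuum, then for every strictly increasing `g` there is one
MAD family which is tight for all countable families whose members are simultaneously dense in
infinitely many of the intervals `[g k, g (k+1))`.
-/

open Cardinal Set Filter Pool.Agent.WTight

namespace Pool.Agent.Results.MP_f1c863_lc.BoundedGrowth

theorem result : sNum = 𝔠 → ∀ g : ℕ → ℕ, StrictMono g →
    ∃ A : Set (Set ℕ), IsMAD A ∧ ∀ B : ℕ → Set ℕ, DenseIn g B →
      (∀ n, Pos A (B n)) ∧ ∃ a ∈ A, ∀ n, (a ∩ B n).Infinite :=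
  fun hs g hg => exists_bounded_growth hs g hg

end Pool.Agent.Results.MP_f1c863_lc.BoundedGrowth
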