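import Pool.Agent.WTight.Main

/-!
If the splitting number is the continuum, every infinite almost disjoint family of size less than
the continuum extends to a MAD family `A` such that for every sequence of infinite sets `B n` and
every `w` some `a ∈ A` has at least `w n` points in `B n` for infinitely many `n`.
-/

open Cardinal Set Filter Pool.Agent.WTight

namespace Pool.Agent.Results.MP_f1c863_lc.FinitelyTight

theorem result : sNum = 𝔠 →
    ∀ A₀ : Set (Set ℕ), IsAD A₀ → A₀.Infinite → #A₀ < 𝔠 →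
    ∃ A : Set (Set ℕ), A₀ ⊆ A ∧ IsMAD A ∧
      ∀ B : ℕ → Set ℕ, (∀ n, (B n).Infinite) → ∀ w : ℕ → ℕ,
        ∃ a ∈ A, ∃ᶠ n in atTop, (w n : ℕ∞) ≤ (a ∩ B n).encard :=
  fun hs A₀ h1 h2 h3 => exists_finitely_tight hs A₀ h1 h2 h3

end Pool.Agent.Results.MP_f1c863_lc.FinitelyTight
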