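import Pool.Agent.WTight.Joint

/-!
If the splitting number is the continuum, there are `b` many MAD families (`b` the bounding
number) such that every countable family of infinite sets of natural numbers is caught by all
but fewer than `b` of them, in the sense of (full) tightness.
-/

open Cardinal Set Filter Pool.Agent.WTight

namespace Pool.Agent.Results.MP_f1c863_lc.JointlyTight

theorem result : sNum = 𝔠 →
    ∃ A : bNum.ord.ToType → Set (Set ℕ), (∀ i, IsMAD (A i)) ∧
      ∀ B : ℕ → Set ℕ, (∀ n, (B n).Infinite) → ∃ i₀, ∀ i, i₀ ≤ i →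
        (∀ n, Pos (A i) (B n)) ∧ ∃ a ∈ A i, ∀ n, (a ∩ B n).Infinite :=
  fun hs => exists_joint hs

end Pool.Agent.Results.MP_f1c863_lc.JointlyTight
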