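import Pool.Agent.WTight.Main

/-!
If `s = c`, every infinite almost disjoint family of size less than `c` extends to a MAD family
for which weak tightness can fail only at countable families on which a subfamily of size less
than `c` (and at least `b`) is wide.
-/

open Cardinal Set Filter Pool.Agent.WTight

namespace Pool.Agent.Results.MP_f1c863_lc.Obstruction

theorem result : sNum = 𝔠 →
    ∀ A₀ : Set (Set ℕ), IsAD A₀ → A₀.Infinite → #A₀ < 𝔠 →
    ∃ A : Set (Set ℕ), A₀ ⊆ A ∧ IsMAD A ∧ ∀ B : ℕ → Set ℕ, (∀ n, Pos A (B n)) →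
      (∃ a ∈ A, ∃ᶠ n in atTop, (a ∩ B n).Infinite) ∨
      ∃ F ⊆ A, bNum ≤ #F ∧ #F < 𝔠 ∧ Wide F B :=
  fun hs A₀ h1 h2 h3 => exists_obstruction hs A₀ h1 h2 h3

end Pool.Agent.Results.MP_f1c863_lc.Obstruction
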